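import Pool.Agent.P.MP_9c97e9_nt.KT.Main
import Pool.Agent.P.MP_9c97e9_nt.KT.Conv

/-!
A 2-converse theorem for all quadratic twists of `X_0(15)` by `-n`, with `n` squarefree and
`n ≡ 3 mod 4`.  The curve `y² = x³ - 12987 n² x + 263466 n³` is isomorphic to
`y² = x (x - 9 n) (x + 16 n)` through `X = 9 x + 21 n`, `Y = 27 y`.
-/

namespace Pool.Agent.P.MP_8b7eba_nt.Old.X015ShaConverse

open Pool.Agent.P.MP_9c97e9_nt Pool.Agent.P.MP_8b7eba_nt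

/-- `f` is entire and equals, on `Re s > 3/2`, the Euler product of `y² = x³ + A x + B` over the
primes not dividing `2 (4 A³ + 27 B²)`, exactly as in the frozen statement of the problem. -/
def IsLFunction (A B : ℤ) (f : ℂ → ℂ) : Prop :=
  Differentiable ℂ f ∧ ∀ s : ℂ, (3 : ℝ) / 2 < s.re →
    HasProd
      (fun p : {p : ℕ // p.Prime ∧ ¬ ((p : ℤ) ∣ 2 * (4 * A ^ 3 + 27 * B ^ 2))} =>
        ((1 : ℂ)
          - ((((p.1 : ℤ) - (Nat.card {q : ZMod p.1 × ZMod p.1 //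
                q.2 ^ 2 = q.1 ^ 3 + (A : ZMod p.1) * q.1 + (B : ZMod p.1)} : ℤ)) : ℤ) : ℂ)
              * ((p.1 : ℂ) ^ (-s))
          + (p.1 : ℂ) ^ (1 - 2 * s))⁻¹)
      (f s)

theorem result (n : ℕ) (hn : Squarefree n) (h4 : n % 4 = 3) (A B : ℤ)
    (hA : A = -12987 * (n : ℤ) ^ 2) (hB : B = 263466 * (n : ℤ) ^ 3) :
    4 * A ^ 3 + 27 * B ^ 2 ≠ 0 ∧
    (∃ f : ℂ → ℂ, IsLFunction A B f) ∧
    ((n.Coprime 15 ∧ Finite (AddCommGroup.primaryComponent (Sha ⟨0, 0, 0, A, B⟩) 2)) ∨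
        (∀ x : Sha ⟨0, 0, 0, A, B⟩, x + x = 0 → x = 0) →
      ∀ f : ℂ → ℂ, IsLFunction A B f → f 1 = 0 →
        {q : ℚ × ℚ | q.2 ^ 2 = q.1 ^ 3 + (A : ℚ) * q.1 + (B : ℚ)}.Infinite) := by
  subst hA hB
  obtain ⟨g, hg, hg'⟩ := All.conv_L hn h4
  refine ⟨?_, ⟨g, hg⟩, fun hs f hf h0 h => hs.elim
    (fun hs => KT.conv_of KT.z_MAIN hn h4 hs.1 hs.2 (by simpa using h) hf h0)
    fun hs => hg' (All.conv_lam hn h4 (by simpa using h) hs) ?_⟩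
  · rw [show 4 * (-12987 * (n : ℤ) ^ 2) ^ 3 + 27 * (263466 * (n : ℤ) ^ 3) ^ 2
      = -6887475360000 * (n : ℤ) ^ 6 by ring]
    exact mul_ne_zero (by norm_num) (pow_ne_zero _ (by exact_mod_cast hn.ne_zero))
  · rw [← Mod.isL_unique hf hg, h0]

end Pool.Agent.P.MP_8b7eba_nt.Old.X015ShaConverse
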